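import Mathlib
import Pool.Agent.Run7.h413.NR.DMain

/-!
# MP_ddf912_lc: reductions from CLIQUE to log-SAT computed by deep networks with shared real values

The inputs are the adjacency bits of the graphs with `n` vertices. A randomised truth-table reduction
asks whether `Q` formulas with at most `d` literals per clause and with `v` variables are satisfiable;
an arbitrary function `ev ω` evaluates the answers. **All bits of all the formulas are computed by one
network** (`Net`): for every question `i` and every clause `cl` the sign of the value of the node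
`o ω (i, cl)` decides whether `cl` belongs to the `i`-th formula.

*Networks.* The nodes carry real numbers of unlimited precision, and the value of a node may be used
by any number of other nodes. The gates are leaves (arbitrary real functions of `w` adjacency bits),
weighted sums of any number of inputs (`lin`), products of two inputs (`mul`), maxima of any number of
inputs (`max`), and symmetric gates (`sym`), whose value is an arbitrary function of the number of the
positive inputs. So networks of rectified linear units, threshold gates, Boolean gates, minima and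
maxima and products are included. The inputs of a gate have smaller levels; the depth is at most `D`
if all levels are at most `D` (`DepthLE`).

*Cost.* For each adjacency bit we count the leaves which see it, and the wires which leave a node that
depends on it (`traffic`); the cost is the sum of these numbers. So a leaf pays the number of the bits
which it sees, and a wire pays the number of the bits on which its source depends. (For instance, a
formula of depth `D` with `L` leaves has cost at most `(D + 1) w L`.)

Suppose that for all graphs which have a clique with `k` vertices or have no clique with `s` vertices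
the answer should be whether there is a clique with `k` vertices, with error probability at most
`1 / 3`. Here `s` may be any number between `(3 / 4 + δ) k` and `k`. We show for all large `k`, all `s`,
`d` and all large `n` that reductions with `v = O (log n)` variables (with any constants), depth `D` and
cost `S` satisfy `n ^ (4 - ε) ≤ (D ^ 2 + w) S + n ^ 2 Q`. So `W[1]` is not contained in `M[1]` with
respect to reductions whose output bits are computed by networks of depth `n ^ o(1)` and of cost
`n ^ (4 - ε)`, with `n ^ (2 - ε)` questions, not even for this gap version of CLIQUE.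

In the earlier hand-in WordProgramReductions the output bits are computed separately, by programs over
formulas whose values are small integers, and no values are shared.

Proof. Nechiporuk's method for gap clique, with the blocks and the coding of that hand-in: there are
`n ^ (2 - o(1))` disjoint blocks of `n ^ o(1)` adjacency bits, each of which can ask for
`n ^ (2 - o(1))` bits which are encoded in the rest of the graph. If `r` leaves and wires see the block
then the rest of the graph enters by at most `2 r` real parameters; passing through the levels, Warren's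
theorem bounds the number of the sign patterns of all nodes by `(n ^ O(1) 2 ^ D) ^ (2 (D + 2) r)`
(`Run7.h413.DN.Core`). The outputs which do not depend on the block are constant; they contribute the
factor `2 ^ (Q n ^ o(1))` and thereby the term `n ^ 2 Q`.
-/

set_option autoImplicit false

namespace Pool.Agent.Results.MP_ddf912_lc.DeepNetworkReductions

open Finset Filter Pool.Agent.R562.QH
open Pool.Agent.R599.NC (Promise)
open Pool.Agent.TH697.Form (IsProb)
open Pool.Agent.TH697.Row (ApproximatesOn)
open Run7.h413.DN (Net)

open Classical in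
/-- There is a randomised truth-table reduction with `Q` questions, from the problem whether a graph
with `n` vertices has a clique with `k` vertices, given that it has one or has no clique with `s`
vertices, to the satisfiability of formulas in `v` variables with at most `d` literals per clause, all
of whose output bits are computed by a network of depth at most `D` and cost at most `S`, whose leaves
see at most `w` adjacency bits. -/
def HasReduction (n k s d Q v w D S : ℕ) : Prop :=
  ∃ (Ω : Type) (_ : Fintype Ω) (μ : Ω → ℝ) (C : Ω → Net (Pairs n) (fun _ => Bool) w 2)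
    (o : ∀ ω, Fin Q × Clause v d → (C ω).Node) (ev : Ω → (Fin Q → Bool) → Bool),
    IsProb μ ∧ (∀ ω, (C ω).DepthLE D) ∧ (∀ ω, (C ω).cost univ ≤ S) ∧
    ApproximatesOn μ (fun ω x => ev ω fun i => decide (Sat fun cl =>
        decide (0 < (C ω).val x (o ω (i, cl)))))
      (Promise n k s) (fun x => decide (¬ (graph x).CliqueFree k))

/-- **Reductions computed by deep networks.** -/
theorem result :
    (∀ ε δ : ℝ, 0 < ε → 0 < δ → ∃ k₀ : ℕ, ∀ k, k₀ ≤ k →
      ∀ s : ℕ, (3 / 4 + δ) * k ≤ s → s ≤ k → ∀ d F G c : ℕ, ∀ᶠ n : ℕ in atTop,
        ∀ Q v w D S : ℕ, 1 ≤ w → 1 ≤ D → v ≤ G * (Nat.log 2 (F * n ^ c) + 1) →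
          HasReduction n k s d Q v w D S →
          (n : ℝ) ^ (4 - ε) ≤ ((D : ℝ) ^ 2 + w) * S + (n : ℝ) ^ 2 * Q) ∧
    (∀ ε δ : ℝ, 0 < ε → 0 < δ → δ ≤ 1 / 4 → ∀ (d c : ℕ) (f g : ℕ → ℕ),
      ¬ ∀ k s : ℕ, (3 / 4 + δ) * k ≤ s → s ≤ k → ∀ᶠ n : ℕ in atTop,
        ∃ Q v w D S : ℕ, 1 ≤ w ∧ 1 ≤ D ∧
          v ≤ g k * (Nat.log 2 (f k * n ^ c) + 1) ∧ HasReduction n k s d Q v w D S ∧
          ((D : ℝ) ^ 2 + w) * S + (n : ℝ) ^ 2 * Q ≤ f k * (n : ℝ) ^ (4 - ε)) := by
  have h1 : ∀ ε δ : ℝ, 0 < ε → 0 < δ → ∃ k₀ : ℕ, ∀ k, k₀ ≤ k →
      ∀ s : ℕ, (3 / 4 + δ) * k ≤ s → s ≤ k → ∀ d F G c : ℕ, ∀ᶠ n : ℕ in atTop,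
        ∀ Q v w D S : ℕ, 1 ≤ w → 1 ≤ D → v ≤ G * (Nat.log 2 (F * n ^ c) + 1) →
          HasReduction n k s d Q v w D S →
          (n : ℝ) ^ (4 - ε) ≤ ((D : ℝ) ^ 2 + w) * S + (n : ℝ) ^ 2 * Q := by
    intro ε δ hε hδ
    obtain ⟨k₀, hk₀⟩ := Run7.h413.NR.Deep.main ε δ hε hδ
    refine ⟨k₀, fun k hk s hs hsk d F G c => ?_⟩
    filter_upwards [hk₀ k hk s hs hsk d F G c] with n hn
    rintro Q v w D S hw hD hv ⟨Ω, hΩ, μ, C, o, ev, hμ, hC, hS, hR⟩
    exact hn Q v w D S hw hD hv Ω μ hμ C o ev hC hS hR
  refine ⟨h1, ?_⟩
  intro ε δ hε hδ hδ4 d c f g hcon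
  refine Run7.h413.NR.none_of (R := fun n k s Y => ∃ Q v w D S : ℕ, 1 ≤ w ∧ 1 ≤ D ∧
    v ≤ g k * (Nat.log 2 (f k * n ^ c) + 1) ∧ HasReduction n k s d Q v w D S ∧
    Y = ((D : ℝ) ^ 2 + w) * S + (n : ℝ) ^ 2 * Q) ε δ hε hδ4 ?_ f ?_
  · obtain ⟨k₀, hk₀⟩ := h1 (ε / 2) δ (by positivity) hδ
    refine ⟨k₀, fun k hk s hs hsk => ?_⟩
    filter_upwards [hk₀ k hk s hs hsk d (f k) (g k) c] with n hn
    rintro Y ⟨Q, v, w, D, S, hw, hD, hv, hR, rfl⟩
    exact hn Q v w D S hw hD hv hR
  · intro k s hs hsk
    filter_upwards [hcon k s hs hsk] with n hn
    obtain ⟨Q, v, w, D, S, hw, hD, hv, hR, hle⟩ := hn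
    exact ⟨_, ⟨Q, v, w, D, S, hw, hD, hv, hR, rfl⟩, hle⟩

end Pool.Agent.Results.MP_ddf912_lc.DeepNetworkReductions
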