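import Pool.Agent.Run7.h625.SQ.Gap2

set_option autoImplicit false

/-!
# `W[1]` is not contained in `M[1]` for reductions definable in infinitary logic with counting

`Def w s ι q` (`Pool/Agent/Run7/h625/SQ/Defs.lean`): the query `q` on finite graphs with variables
indexed by `ι` is definable with at most `w` variables from adjacency and equality by negation,
conjunctions of any size, substitution, counting quantifiers, and all Lindstroem quantifiers for
small interpreted structures: if `Θ` is an interpretation (with parameters, of any dimension, with a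
definable domain and a definable congruence) then `the structure defined by Θ has at most s n elements
and is in the class K` is definable on graphs with `n` vertices, for any class `K` of structures,
decidable or not. This is the form of adaptive (Turing) reductions to questions on `s n` elements.

* (1) For `k ≥ 3` and `β (k - 2) < 1`, for all large `n` there are graphs `G`, `H` with `n` vertices,
  `G` with a `k`-clique and `H` without, that agree on all sentences with `k - 1` variables and
  `s n ≤ n ^ β`.
* (2) `k` variables suffice, without the new quantifiers.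
* (3) The total gap version, optimal up to the constant `C` by (2): for all `w` and `k` there is
  `β > 0` such that for all large `n` there are graphs `G` with a `k`-clique and `H` without cliques
  with more than `C (w + 1)` vertices that agree on all sentences with `w` variables and
  `s n ≤ n ^ β`.
* (4) In particular every Turing reduction of the total gap problem with questions on
  `g k * log (f k * n ^ c)` elements, for arbitrary functions `f`, `g`, is wrong on some graph with
  `n` vertices, for all large `n`.
* (5) Many-one reductions to the satisfiability of formulas with at most `d` literals in each clause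
  and at most `g k * log (f k * n ^ c)` variables: the case of `p-log-SAT(Γ_{1,d})`.
-/

namespace Pool.Agent.Results.MP_ddf912_lc.DefinableTuringReductions

open Filter Run7.h625.SQ

theorem result :
    (∀ k : ℕ, 3 ≤ k → ∀ β : ℝ, β * (k - 2) < 1 → ∀ᶠ n : ℕ in atTop,
      ∃ G H : SimpleGraph (Fin n), ¬ G.CliqueFree k ∧ H.CliqueFree k ∧
        ∀ s : ℕ → ℕ, (s n : ℝ) ≤ (n : ℝ) ^ β → ∀ q, Def (k - 1) s Empty q →
          (q (Fin n) G Empty.elim ↔ q (Fin n) H Empty.elim)) ∧
    (∀ (k : ℕ) (s : ℕ → ℕ), Def k s Empty (fun _ _ G _ => ¬ G.CliqueFree k)) ∧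
    (∃ C : ℕ, ∀ w k : ℕ, ∃ β : ℝ, 0 < β ∧ ∀ᶠ n : ℕ in atTop,
      ∃ G H : SimpleGraph (Fin n), ¬ G.CliqueFree k ∧
        (∀ L : Finset (Fin n), H.IsClique L → L.card ≤ C * (w + 1)) ∧
        ∀ s : ℕ → ℕ, (s n : ℝ) ≤ (n : ℝ) ^ β → ∀ q, Def w s Empty q →
          (q (Fin n) G Empty.elim ↔ q (Fin n) H Empty.elim)) ∧
    (∃ C : ℕ, ∀ (c w k : ℕ) (f g : ℕ → ℕ), ∀ᶠ n : ℕ in atTop, ∀ q,
      Def w (fun n => g k * (Nat.log 2 (f k * n ^ c) + 1)) Empty q →
        ∃ G : SimpleGraph (Fin n), (¬ G.CliqueFree k ∧ ¬ q (Fin n) G Empty.elim) ∨
          ((∀ L : Finset (Fin n), G.IsClique L → L.card ≤ C * (w + 1)) ∧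
            q (Fin n) G Empty.elim)) ∧
    (∀ (c d w : ℕ) (f g : ℕ → ℕ) (k : ℕ), w < k → 3 ≤ k → ∀ᶠ n : ℕ in atTop,
      ∀ Θ : Interp Empty (Fin d → Bool) (fun _ => d),
        DefInterp w (fun n => g k * (Nat.log 2 (f k * n ^ c) + 1)) Θ →
        ∃ G : SimpleGraph (Fin n), ¬ (¬ G.CliqueFree k ↔
          ∃ N, N ≤ g k * (Nat.log 2 (f k * n ^ c) + 1) ∧ ∃ M : Cnf d N, M.Sat ∧
            Θ.Defines G Empty.elim M)) :=
  ⟨fun k hk β hβ => clique_pair k hk β hβ, fun k s => def_clique k s, total_gap, no_turing_total,
    fun c d w f g k hw hk => no_many_one c d w f g k hw hk⟩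

end Pool.Agent.Results.MP_ddf912_lc.DefinableTuringReductions
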