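import Pool.Agent.Run7.h156.CR.Asym

/-!
# Reductions from CLIQUE to log-SAT with few reads and small treewidth

The input is a graph with `n` vertices, given by one bit for each pair of vertices (`bits`). The
reductions are computed by word circuits (`WordCircuit`, `Pool/Agent/Run7/h156/CR/Circ.lean`): the
gates hold words of `b` bits, every gate computes an ARBITRARY function of at most `κ` input bits and
words of earlier gates, and every output bit is a function of the word of a gate. The parameters are

* the number of reads: the number of wires from the input bits to gates,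
* the treewidth `θ` of the graph of the gates (whose edges are the wires between gates).

There is no bound on the number of gates, that is, on the time. Oblivious machines which run through
the input several times, in any order, with an arbitrary computation after each step, give such
circuits, and the treewidth is at most a constant times the number of words of the memory.

The circuits are chosen at random, and the wires of different circuits need not have anything in
common. `prob μ C ans G a` is the probability that the answer is `a` for the graph `G`, if the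
(random) function `ans` evaluates the output bits. `Solves μ C ans k s` says that the answers tell
the graphs with a clique of `k` vertices from the graphs without clique of `s` vertices, with error
probability at most `1 / 3`. Here `s` may be any number with `(k + 4) / 2 ≤ s ≤ k`.

**Results.** (1) If the circuits have `N` output bits, `n ≥ 2 k`, and the mean number of reads is at
most `r n ^ 2` then `n ≤ 2 ^ (5000 k ^ 6 r) (κ + 1) (θ + 1 + N) b`: with few reads and small treewidth
the problem cannot be compressed to few bits, even if arbitrary functions may evaluate them.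

(2) In particular, for fixed `k`, `s`, `d`, `F`, `G`, `c` and `ε > 0` and large `n`, all randomised
truth-table reductions with `Q` questions to the satisfiability of formulas with at most `d` literals
per clause and at most `G (log (F n ^ c) + 1)` variables, which are computed by random word circuits
with `(κ + 1) (θ + 1 + Q) b ≤ n ^ (1 - ε)`, have at least `ε / (20000 k ^ 6) n ^ 2 log n` reads on
average.

(3) So there are no such reductions with `f k * n ^ 2 * o(log n)` reads on average and formulas with
`g k (log (f k * n ^ c) + 1)` variables: `W[1]` is not contained in `M[1]` in this model.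

**Proof.** A circuit is cut into `O (k ^ 8 r ^ 2)` parts with few reads each by the removal of few
gates (from the library of the starting result `MP_13bec0_lc.TreewidthTimesReads`). In a random graph
there are `m` blocks of `2 h` vertices, `h = k - s + 2`, at random places, and `k - 2 h` further
vertices which are joined to everything. The first (second) half of a block is a clique if the number
of the block is in a set `x` (`y`), and an independent set otherwise; all other pairs of vertices of a
block are joined. So there is a clique of `k` vertices if `x` and `y` meet, and every clique has less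
than `s` vertices if they are disjoint. A family of `2 ^ O (k ^ 6 r)` sets of parts separates, for almost
all blocks, the parts in which the first half is read from those in which the second half is read. For
the blocks which are separated by the same set, and for fixed values of the removed gates, the
accepted pairs `(x, y)` form a rectangle, and a corruption bound for set disjointness, with the
constant `13 / 20`, compares the probabilities of the two kinds of inputs. It is proved by the level
one inequality.
-/

set_option autoImplicit false

namespace Pool.Agent.Results.MP_ddf912_lc.FewReadsSmallTreewidth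

open Finset Filter Topology Run7.h156.CR

/-- (1) Compression; (2) reductions; (3) the case of `f k * n ^ 2 * o(log n)` reads. -/
theorem result :
    (∀ {O Z Ω : Type} [Fintype O] [Fintype Z] [Fintype Ω] {k s n κ θ b r : ℕ},
      k + 4 ≤ 2 * s → s ≤ k → 2 * k ≤ n → 1 ≤ r → 1 ≤ b →
      ∀ (μ : Ω → ℝ) (C : Ω → WordCircuit (Sym2 (Fin n)) O Z) (ans : Ω → (O → Bool) → Bool),
      (∀ ω, (C ω).FanIn κ) → (∀ ω, (C ω).TreewidthLE θ) → Fintype.card Z ≤ 2 ^ b →
      ∑ ω, μ ω * (C ω).reads ≤ r * (n : ℝ) ^ 2 → Solves μ C ans k s →
      n ≤ 2 ^ (5000 * k ^ 6 * r) * ((κ + 1) * (θ + 1 + Fintype.card O) * b)) ∧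
    (∀ {k s : ℕ}, k + 4 ≤ 2 * s → s ≤ k → ∀ {ε : ℝ}, 0 < ε → ∀ d F G c : ℕ,
      ∀ᶠ n : ℕ in atTop, ∀ Q v κ θ b : ℕ, 1 ≤ b →
      v ≤ G * (Nat.log 2 (F * n ^ c) + 1) →
      ((κ + 1) * (θ + 1 + Q) * b : ℝ) ≤ (n : ℝ) ^ (1 - ε) → ∀ T : ℝ,
      HasReduction n k s d Q v κ θ b T →
      ε / (20000 * (k : ℝ) ^ 6) * ((n : ℝ) ^ 2 * Real.logb 2 n) ≤ T) ∧
    (∀ {ε : ℝ}, 0 < ε → ∀ (d c : ℕ) (f g : ℕ → ℕ) (τ : ℕ → ℝ),
      Tendsto (fun n : ℕ => τ n / Real.logb 2 n) atTop (𝓝 0) →
      ∀ {k s : ℕ}, k + 4 ≤ 2 * s → s ≤ k → ∀ᶠ n : ℕ in atTop, ∀ Q v κ θ b : ℕ, 1 ≤ b →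
      v ≤ g k * (Nat.log 2 (f k * n ^ c) + 1) →
      ((κ + 1) * (θ + 1 + Q) * b : ℝ) ≤ (n : ℝ) ^ (1 - ε) →
      ¬ HasReduction n k s d Q v κ θ b (f k * ((n : ℝ) ^ 2 * τ n))) := by
  refine ⟨fun h1 h2 h3 h4 h5 μ C ans h6 h7 h8 h9 h10 =>
    compression h1 h2 h3 h4 h5 μ C ans h6 h7 h8 h9 h10,
    fun h1 h2 _ hε d F G c => reductions h1 h2 hε d F G c, ?_⟩
  intro ε hε d c f g τ hτ k s h1 h2
  have hk : (0:ℝ) < k := by
    have : 0 < k := by omega
    exact_mod_cast this
  obtain ⟨δ, hδ⟩ : ∃ δ, δ = ε / (20000 * (k : ℝ) ^ 6) := ⟨_, rfl⟩
  have hδ0 : 0 < δ := by rw [hδ]; positivity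
  have h3 : ∀ᶠ n : ℕ in atTop, τ n / Real.logb 2 n < δ / ((f k : ℝ) + 1) :=
    hτ.eventually_lt_const (by positivity)
  filter_upwards [reductions h1 h2 hε d (f k) (g k) c, h3, eventually_ge_atTop 2] with n h4 h5 h6
  intro Q v κ θ b hb hv hs hred
  have h7 := h4 Q v κ θ b hb hv hs _ hred
  rw [← hδ] at h7
  have hn : (1:ℝ) < n := by exact_mod_cast h6
  have hl : 0 < Real.logb 2 n := Real.logb_pos (by norm_num) hn
  have hn2 : (0:ℝ) < (n : ℝ) ^ 2 := by positivity
  have hf : (0:ℝ) < (f k : ℝ) + 1 := by positivity
  rw [div_lt_div_iff₀ hl hf] at h5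
  have h8 : (n : ℝ) ^ 2 * (δ * Real.logb 2 n) ≤ (n : ℝ) ^ 2 * (f k * τ n) := by
    refine le_trans (le_of_eq ?_) (h7.trans (le_of_eq ?_)) <;> ring
  have h9 := le_of_mul_le_mul_left h8 hn2
  have hf0 : (0:ℝ) ≤ f k := Nat.cast_nonneg _
  rcases le_or_gt (τ n) 0 with h10 | h10
  · have h11 : (f k : ℝ) * τ n ≤ 0 := mul_nonpos_of_nonneg_of_nonpos hf0 h10
    have h12 : 0 < δ * Real.logb 2 n := mul_pos hδ0 hl
    linarith
  · nlinarith

end Pool.Agent.Results.MP_ddf912_lc.FewReadsSmallTreewidth
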