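import Mathlib
import Pool.Agent.Run7.h413.NR.FMain

/-!
# MP_ddf912_lc: reductions from CLIQUE to log-SAT computed by networks over an arbitrary field

The inputs are the adjacency bits of the graphs with `n` vertices. A randomised truth-table reduction
asks whether `Q` formulas with at most `d` literals per clause and with `v` variables are satisfiable;
an arbitrary function `ev ω` evaluates the answers. **All bits of all the formulas are computed by one
network** (`Net`) over a field `K` of any characteristic, finite or infinite: for every question `i`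
and every clause `cl` it is decided by the value of the node `o ω (i, cl)` (is it zero?) whether `cl`
belongs to the `i`-th formula.

*Networks.* The nodes carry elements of `K`, and the value of a node may be used by any number of
other nodes. The gates are leaves (arbitrary functions with values in `K` of `w` adjacency bits),
weighted sums of any number of inputs (`lin`), products of two inputs (`mul`), and gates `sym` of any
fan-in whose value is an arbitrary function of the number of the inputs which are not zero (for
instance zero tests, threshold gates and parities of bits). **The depth is not bounded.** The gates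
`sym` are nested at most `h` times (`TestDepthLE`), and between them the formal degree is at most `γ`
(`DegreeLE`): the degree of a product is at least the sum of the degrees of its factors; leaves and
gates `sym` may have degree one.

*Cost.* For each adjacency bit we count the leaves which see it, and the wires which leave a node that
depends on it (`traffic`); the cost is the sum of these numbers.

Suppose that for all graphs which have a clique with `k` vertices or have no clique with `s` vertices
the answer should be whether there is a clique with `k` vertices, with error probability at most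
`1 / 3`. Here `s` may be any number between `(3 / 4 + δ) k` and `k`. We show for all large `k`, all `s`,
`d` and all large `n` that reductions with `v = O (log n)` variables (with any constants) over any field
satisfy `n ^ (4 - ε) ≤ (w + (h + 1) (1 + log₂ γ)) S + n ^ 2 Q`. So `W[1]` is not contained in `M[1]`
with respect to reductions whose output bits are computed by arithmetic networks of any depth, with
`n ^ o(1)` nested tests, formal degree `2 ^ (n ^ o(1))`, cost `n ^ (4 - ε)` and `n ^ (2 - ε)` questions,
not even for this gap version of CLIQUE.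

Proof. Nechiporuk's method for gap clique, with the blocks and the coding of WordProgramReductions
(there are `n ^ (2 - o(1))` disjoint blocks of `n ^ o(1)` adjacency bits, each of which can ask for
`n ^ (2 - o(1))` bits which are encoded in the rest of the graph). If `r` leaves and wires see the
block then the rest of the graph enters by at most `2 r` parameters in `K`; between two tests the values
are polynomials of degree at most `γ` in the parameters, and the theorem of Rónyai, Babai and
Ganapathy bounds the number of the zero patterns of all nodes by `(n ^ 7 γ) ^ (2 (h + 1) r)`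
(`Run7.h413.FN.Core`). The outputs which do not depend on the block are constant; they contribute the
factor `2 ^ (Q n ^ o(1))` and thereby the term `n ^ 2 Q`.
-/

set_option autoImplicit false

namespace Pool.Agent.Results.MP_ddf912_lc.FieldNetworkReductions

open Finset Filter Pool.Agent.R562.QH
open Pool.Agent.R599.NC (Promise)
open Pool.Agent.TH697.Form (IsProb)
open Pool.Agent.TH697.Row (ApproximatesOn)
open Run7.h413.FN (Net)

open Classical in
/-- There is a randomised truth-table reduction with `Q` questions, from the problem whether a graph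
with `n` vertices has a clique with `k` vertices, given that it has one or has no clique with `s`
vertices, to the satisfiability of formulas in `v` variables with at most `d` literals per clause, all
of whose output bits are computed by a network over the field `K` with at most `h` nested tests, formal
degree at most `γ` and cost at most `S`, whose leaves see at most `w` adjacency bits. -/
def HasReduction (K : Type) [Field K] (n k s d Q v w h γ S : ℕ) : Prop :=
  ∃ (Ω : Type) (_ : Fintype Ω) (μ : Ω → ℝ) (C : Ω → Net K (Pairs n) (fun _ => Bool) w 2)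
    (o : ∀ ω, Fin Q × Clause v d → (C ω).Node) (ev : Ω → (Fin Q → Bool) → Bool),
    IsProb μ ∧ (∀ ω, (C ω).TestDepthLE h) ∧ (∀ ω, (C ω).DegreeLE γ) ∧
    (∀ ω, (C ω).cost univ ≤ S) ∧
    ApproximatesOn μ (fun ω x => ev ω fun i => decide (Sat fun cl =>
        decide ((C ω).val x (o ω (i, cl)) ≠ 0)))
      (Promise n k s) (fun x => decide (¬ (graph x).CliqueFree k))

/-- **Reductions computed by networks over a field.** -/
theorem result :
    (∀ ε δ : ℝ, 0 < ε → 0 < δ → ∃ k₀ : ℕ, ∀ k, k₀ ≤ k →
      ∀ s : ℕ, (3 / 4 + δ) * k ≤ s → s ≤ k → ∀ d F G c : ℕ, ∀ᶠ n : ℕ in atTop,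
        ∀ (K : Type) [Field K] (Q v w h γ S : ℕ), 1 ≤ w → 1 ≤ γ →
          v ≤ G * (Nat.log 2 (F * n ^ c) + 1) → HasReduction K n k s d Q v w h γ S →
          (n : ℝ) ^ (4 - ε) ≤ (w + (h + 1) * (1 + Real.logb 2 γ)) * S + (n : ℝ) ^ 2 * Q) ∧
    (∀ ε δ : ℝ, 0 < ε → 0 < δ → δ ≤ 1 / 4 → ∀ (d c : ℕ) (f g : ℕ → ℕ),
      ¬ ∀ k s : ℕ, (3 / 4 + δ) * k ≤ s → s ≤ k → ∀ᶠ n : ℕ in atTop,
        ∃ (K : Type) (_ : Field K) (Q v w h γ S : ℕ), 1 ≤ w ∧ 1 ≤ γ ∧
          v ≤ g k * (Nat.log 2 (f k * n ^ c) + 1) ∧ HasReduction K n k s d Q v w h γ S ∧
          (w + (h + 1) * (1 + Real.logb 2 γ)) * S + (n : ℝ) ^ 2 * Q ≤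
            f k * (n : ℝ) ^ (4 - ε)) := by
  have h1 : ∀ ε δ : ℝ, 0 < ε → 0 < δ → ∃ k₀ : ℕ, ∀ k, k₀ ≤ k →
      ∀ s : ℕ, (3 / 4 + δ) * k ≤ s → s ≤ k → ∀ d F G c : ℕ, ∀ᶠ n : ℕ in atTop,
        ∀ (K : Type) [Field K] (Q v w h γ S : ℕ), 1 ≤ w → 1 ≤ γ →
          v ≤ G * (Nat.log 2 (F * n ^ c) + 1) → HasReduction K n k s d Q v w h γ S →
          (n : ℝ) ^ (4 - ε) ≤ (w + (h + 1) * (1 + Real.logb 2 γ)) * S + (n : ℝ) ^ 2 * Q := by
    intro ε δ hε hδ
    obtain ⟨k₀, hk₀⟩ := Run7.h413.NR.Field.main ε δ hε hδ
    refine ⟨k₀, fun k hk s hs hsk d F G c => ?_⟩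
    filter_upwards [hk₀ k hk s hs hsk d F G c] with n hn
    rintro K _ Q v w h γ S hw hγ hv ⟨Ω, hΩ, μ, C, o, ev, hμ, hT, hG, hS, hR⟩
    exact hn K Q v w h γ S hw hγ hv Ω μ hμ C o ev hT hG hS hR
  refine ⟨h1, ?_⟩
  intro ε δ hε hδ hδ4 d c f g hcon
  refine Run7.h413.NR.none_of (R := fun n k s Y => ∃ (K : Type) (_ : Field K)
    (Q v w h γ S : ℕ), 1 ≤ w ∧ 1 ≤ γ ∧
    v ≤ g k * (Nat.log 2 (f k * n ^ c) + 1) ∧ HasReduction K n k s d Q v w h γ S ∧
    Y = (w + (h + 1) * (1 + Real.logb 2 γ)) * S + (n : ℝ) ^ 2 * Q) ε δ hε hδ4 ?_ f ?_
  · obtain ⟨k₀, hk₀⟩ := h1 (ε / 2) δ (by positivity) hδ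
    refine ⟨k₀, fun k hk s hs hsk => ?_⟩
    filter_upwards [hk₀ k hk s hs hsk d (f k) (g k) c] with n hn
    rintro Y ⟨K, hK, Q, v, w, h, γ, S, hw, hγ, hv, hR, rfl⟩
    exact hn K Q v w h γ S hw hγ hv hR
  · intro k s hs hsk
    filter_upwards [hcon k s hs hsk] with n hn
    obtain ⟨K, hK, Q, v, w, h, γ, S, hw, hγ, hv, hR, hle⟩ := hn
    exact ⟨_, ⟨K, hK, Q, v, w, h, γ, S, hw, hγ, hv, hR, rfl⟩, hle⟩

end Pool.Agent.Results.MP_ddf912_lc.FieldNetworkReductions
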